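import Pool.Agent.RCH.MnCon
import Pool.Agent.RCH.MnNum
import Pool.Agent.RCH.MnEx5
import Pool.Agent.RCH.MnEx6

/-!
# One-cycles on sections of weighted hypersurfaces with a vertex

The Chow groups are the classical ones, with rational coefficients written as nonzero multiples: the
definitions are in `Pool/Agent/RCH/Defs.lean` (`Pt X N`: integral subschemes of `X^N`, as
multihomogeneous prime ideals; `Cycles`, `CodimOne`, `box`, `extPow`) and in
`Pool/Agent/RCH/WtDefs.lean` (`localRing X P Q`: the local ring of the variety `P` at `Q`; `ordIn`:
order of vanishing; `IsDiv`: divisor of a rational function; `RatEq X N`: the cycles on `X^N`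
rationally equivalent to zero). `curveDegree`, `degree`: `Pool/Agent/RCH/DgDefs.lean`.
`weightedHypersurface`: `WdElem.lean`; `OnSection`, `QuasiSmooth`, `smoothForm`: `WpStmt.lean`; `Eqv`,
`TwoPoints`: `MnTwoDefs.lean`. The other definitions of the statement are in `MnStmt.lean`.

Under the hypotheses `X` and its section `x_3 = 0` are irreducible. If there is only one cone, the
relation between the squares is empty.

**Proof.** Let `x_0, …, x_4 = v, s, t, ω, y` and let `Y` be the section `ω = 0` of `X`,
`p = (1, 0, 0, 0, 0)`. For an ideal `J` of `R = ℂ[v, v', s, t, ω, y, y']` let `Λ(J) = (R / J)[T, 1 / T]`,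
a module over the ring of the coordinates of two points: those of the first point act as
`v, s, t, ω, y`, those of the second point as `v', s, t, ω, y'` times the powers of `T` given by the
weights. Let `[J]` be the cycle on `X × X` given by the lengths of `Λ(J)` at the points of dimension
two. No choice of a common unit is needed: `Λ(J)` is the module of all pairs of points with
proportional common coordinates.

* *Relations.* If `R / J` is integral over four elements and `b, b'` are homogeneous of the same
  degree and are not zero divisors modulo `J`, then `[J + (b)] - [J + (b')]` is rationally equivalent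
  to zero outside the points where no common coordinate is invertible at both points: it is the sum
  of the divisors of the determinants of `b / b'` at the components of `Λ(J)` (a length of a cokernel of
  an endomorphism of a finite module over a one-dimensional local domain is the order of its
  determinant; devissage).
* (E) Let `F(y') - F(y) = (y' - y) Ψ`. From `(y - y') ^ w` and `ω ^ r` on `(v - v', F, Ψ)`, `F_y ^ w` and
  `ω ^ (d - r)` on the diagonal, `d = D r`: a multiple of `r [v - v', ω, F, F'] - d [Δ_Y]` is zero.
* (U) On the pairs of points of `Y` with the same `(s, t)` take `(y - y') ^ p` and `s ^ r`, and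
  `(v - v') ^ p` and `s ^ N`. The locus `y = y'` is `(v ^ e - v' ^ e) A = F = 0`: it is `e [Δ_Y] + [J_Z]` with
  `J_Z = (A, B)`, because `e` divides `p, q, r` and is prime to `N`.
* The locus `s = 0` is `q div(s) × div(s)`, and `[J_Z] = ∑ n_a G_a C_a × C_a`, where `div(A) = ∑ n_a C_a` on
  `Y` and `G_a` is the greatest common divisor of the weights of the coordinates which are not zero
  at `a` (roots of unity; devissage on the homogeneous ideals over `(A, B)`).
* The only points of `X × X` outside the domain of the relations are `p × Y` and `Y × p`. A degree
  functional on the cycles on `X × X` (multiplicities for all gradings `τ deg_1 + deg_2`, as a polynomial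
  in `1 / τ`) shows that their coefficients are zero. So a multiple of
  `k d ∑ n_a G_a C_a × C_a - p q r div(A) × div(A)` is zero; this is (1), as `C_a` has the multiplicity
  `1 / (N G_a)`.
* Up to torsion the class group of `Y` is generated by the `C_a`: a homogeneous prime ideal of height
  one without `A` contains an irreducible form in `s, t, y`, and is the only one containing it.
* If all but two of the `a` are alone on a factor of `A`, then the group of the one-cycles of degree
  zero on `Y` has rank at most one up to torsion, and (1) becomes: a nonzero multiple of the square of a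
  generator is zero.
* If any two cones are exchanged by a symmetry, then `n_a` and `G_a` are constant, and (1) and the graphs
  of the symmetries give one relation for each orbit of pairs of cones. The matrices of the orbits are
  symmetric and commute. If `u, u'` of degree zero are in the same joint eigenspace, then a multiple of
  `u × u'` is zero, and in a product of `|s|` eigenvectors of degree zero two are in the same one.
* (2): for `D ≤ 2 q / gcd(q, r)` a form of degree `D r` in `t, y` has at most two zeros with `t ≠ 0`.

Rows by helpers 9, 15, 38, 41, 64, 81, 85, 88 and 98 (`Mn*.lean`; relations `Lat*.lean`, `MRel*.lean`,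
`MV*.lean`: helpers 41, 64, 81, 85, 98; `MZ*.lean`: helper 9; `MB*.lean`: helper 38; bidegree
`Dg2*.lean`: helper 88; comparison of the orders with those in the homogeneous coordinate ring
`Wt*.lean`: helpers 7, 15, 73; degree `Dg*.lean`: helpers 64, 73, 98).

**Not in Lean.** (a) Among the 7555 families of quasi-smooth Calabi-Yau hypersurfaces in weighted
projective 4-spaces, 1450 satisfy the numerical hypotheses of (2), for some order of the weights, with
`q / gcd(q, r) < D`, that is, with two cones over points of `s = 0` (so that the statement is not empty)
for their general members: there the statement is about the general member of the whole family (full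
moduli). For the general members of 1639 families the hypotheses of (1) are satisfied and the
one-cycles of degree zero on `Y` have rank exactly one, so that their products are torsion (1623 of them
by `TwoPoints`); 985 of these families have no coordinate of weight `d / 2`, so that there is no
involution; in 3341 families the relation between the squares is not trivial. Examples without an
involution: the forms of degree 24 with weights `(11, 2, 6, 1, 4)`, `e = 2`, and of degree 27 with weights
`(8, 3, 6, 1, 9)`, `e = 3`; among the examples in (3) the Calabi-Yau ones are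
`(e, a, b) = (2, 3, 4), (2, 5, 3), (3, 2, 3), (3, 5, 2), (4, 3, 2)`. (b) `H_2(X, ℚ) = ℚ` for every `X` in (1),
as its complement in the weighted projective space is affine, so that one-cycles of degree zero are
homologically trivial; if `X` is quasi-smooth, their pull-backs to a resolution of `X` are
homologically trivial and their products are torsion too. (c) Let `w = 1`, `A = a s + b(t, y)` and `Y`
quasi-smooth (110 of the families in (a)). Then `X` is a section of the quasi-smooth fourfold
`u ω + F(v, s, t, 0, y) = 0`, whose primitive fourth cohomology is generated by the classes of the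
differences of the surfaces which restrict to the multiples `g_C C`, and for very general `X`
Griffiths's argument suggests that these differences have infinite order modulo algebraic equivalence
(it proves this for the smooth double covers of `ℙ³` of degree `2 m ≥ 8`). (d) For `2 r = d` and
`A = (a s + b t ^ j) ^ k t ^ l` these are weighted double covers.
-/

set_option autoImplicit false

open MvPolynomial

namespace Pool.Agent.Results.MP_bf8edd_ag.ConeCurves

open Pool.Agent.RCH Pool.Agent.RCH.Wdc Pool.Agent.RCH.Mn

/-- **One-cycles on sections of weighted hypersurfaces.** Let `N, p, q, w, r ≥ 1`, `D ≥ 2`, let `e` divide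
`p`, `q` and `r`, `gcd(N, e) = 1`, `gcd(N, p, q, w) | r` and `D r = e N + k` (`Weights`).

(1) Let `F` be a weighted form of degree `D r` in `x_0, …, x_4` of weights `N, p, q, w, r` in which the
coefficient of `x_4 ^ D` is not zero and which is `x_0 ^ e A(x_1, x_2, x_4) + B(x_1, x_2, x_4)` modulo
`x_3`, with relatively prime `A ≠ 0`, `B` and `A(0, 0, 1) = 0` (`Member`). Let `X` be the hypersurface
`F = 0`, let `Y` be its section by `x_3 = 0`, and let `s` be the finite set of the curves
`C_a = {(v, a_0 τ ^ p, a_1 τ ^ q, 0, a_2 τ ^ r)}` on `Y`, for all common zeros `a ≠ 0` of `A` and `B`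
(`AllCones`). There are integers `g_C, c_C ≥ 1` for `C ∈ s`, with `g_C deg(C)` independent of `C`, such that a
nonzero multiple of `∑ c_C c_C' (g_C C - g_C' C') × (g_C C - g_C' C')`, over all pairs of curves in `s`, is
rationally equivalent to zero on `X × X` (`SquaresRelation`). Every one-cycle on `X` supported on `Y` has
a nonzero multiple which is rationally equivalent to a combination of the curves in `s`. If the common
zeros of `A` and `B` are, up to the action of `ℂ ^ *`, at most two points and points which are alone on a
form which divides `A` (`TwoPoints`), then the one-cycles of degree zero supported on `Y` are, up to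
nonzero multiples and rational equivalence, the multiples of one of them. Whenever this is so, for any
two such one-cycles `D_1`, `D_2` a nonzero multiple of `D_1 × D_2` is rationally equivalent to zero. If any two
curves in `s` are exchanged by a monomial symmetry of `X` which maps `x_0` and `x_3` to multiples of
themselves (`Exchangeable`), then for all one-cycles `D_1, …, D_n` of degree zero supported on `Y`,
`n ≥ |s|`, a nonzero multiple of `D_1 × ⋯ × D_n` is rationally equivalent to zero (`Conclusion`).

(2) Let `k ≥ 1`, `l ≥ 0`, and let the degree of `A` be `k p + l q`. Suppose that every monomial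
`x_0 ^ u x_1 ^ i x_2 ^ j x_4 ^ c` of degree `D r` has `u = 0`, or `u = e`, `j ≥ l`, `i = k` or `k = 1`, and `i ≥ 1`
or `j > l`; that `D ≤ 2 q / gcd(q, r)`; and that `l = 0` or `D ≤ p / gcd(p, r)` (`Numerical`). Then every
weighted form `F` of degree `D r` in which the coefficients of `x_4 ^ D` and of `x_0 ^ e x_1 ^ k x_2 ^ l` are
not zero is as in (1) with `TwoPoints`. So the one-cycles of degree zero supported on `x_3 = 0` are, up
to nonzero multiples and rational equivalence, the multiples of one of them, and for any two of them a
nonzero multiple of `D_1 × D_2` is rationally equivalent to zero.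

(3) If `a ≥ 1`, `b ≥ 2` are relatively prime and `N = (a + 1) b - 1` is prime to `e ≥ 1`, the hypotheses on
the numbers in (2) hold for the weights `N, e, e a, 1, e b` and `D = a + 1`, `k = 1`, `l = 0`, and there is a
quasi-smooth `X` of this kind for which `A` and `B` have two common zeros which are not equivalent.

(4) For every `m ≥ 1` the double cover
`x_4 ^ 2 = x_0 x_1 ^ (2 m - 1) + x_1 ^ (2 m) + x_2 ^ (2 m) + x_3 (x_0 ^ (2 m - 1) + x_3 ^ (2 m - 1))` of
`ℙ³` is smooth and as in (1) with `TwoPoints`, and `A` and `B` have two common zeros which are not
equivalent.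

(5) Let `r = q` and `D q = e N + k p = c p = m w = g N + w` with `k ≥ 1`, `m ≥ 2` (and `Weights`). For
some `a` the hypersurface `a x_0 ^ e x_1 ^ k + x_1 ^ c + x_2 ^ D + x_4 ^ D + x_3 (x_0 ^ g + x_3 ^ (m - 1)) = 0` is
quasi-smooth and as in (1), and `s` consists of `D` curves, any two of which are exchanged by a symmetry.
So for all one-cycles `D_1, …, D_D` of degree zero supported on `x_3 = 0`, a nonzero multiple of
`D_1 × ⋯ × D_D` is rationally equivalent to zero. For the weights `1, 1, 1, 1, 1` and `e = 1`,
`k = g = D - 1`, `c = m = D` these are smooth hypersurfaces of every degree `D ≥ 2` in `ℙ⁴`. -/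
theorem result :
    (∀ (N p q w r e D k : ℕ) (A B : MvPolynomial (Fin 3) ℂ) (F : MvPolynomial (Fin 5) ℂ),
      Weights N p q w r e D k → Member N p q w r e D A B F →
        Conclusion ![N, p, q, w, r] p q r A B F) ∧
    (∀ (N p q w r e D k l : ℕ) (F : MvPolynomial (Fin 5) ℂ),
      Weights N p q w r e D (k * p + l * q) → 1 ≤ k → Numerical N p q r e D k l →
      IsWeightedHomogeneous ![N, p, q, w, r] F (D * r) → coeff (Finsupp.single 4 D) F ≠ 0 →
      coeff (Finsupp.single 0 e + Finsupp.single 1 k + Finsupp.single 2 l) F ≠ 0 →
        (∃ A B : MvPolynomial (Fin 3) ℂ, Member N p q w r e D A B F ∧ TwoPoints p q r A B) ∧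
        RankAtMostOne ![N, p, q, w, r] F ∧ ProductsTorsion ![N, p, q, w, r] F 2) ∧
    (∀ e a b : ℕ, 1 ≤ e → 1 ≤ a → 2 ≤ b → a.Coprime b → ((a + 1) * b - 1).Coprime e →
      Weights ((a + 1) * b - 1) e (e * a) 1 (e * b) e (a + 1) e ∧
      Numerical ((a + 1) * b - 1) e (e * a) (e * b) e (a + 1) 1 0 ∧
      ∃ (B : MvPolynomial (Fin 3) ℂ) (F : MvPolynomial (Fin 5) ℂ), QuasiSmooth F ∧
        Member ((a + 1) * b - 1) e (e * a) 1 (e * b) e (a + 1) (X 0) B F ∧
        coeff (Finsupp.single 0 e + Finsupp.single 1 1) F ≠ 0 ∧
        TwoPoints e (e * a) (e * b) (X 0) B ∧ Inequivalent e (e * a) (e * b) (X 0) B) ∧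
    (∀ m : ℕ, 1 ≤ m → Weights 1 1 1 1 m 1 2 (2 * m - 1) ∧ QuasiSmooth (smoothForm m) ∧
      ∃ A B : MvPolynomial (Fin 3) ℂ, Member 1 1 1 1 m 1 2 A B (smoothForm m) ∧
        TwoPoints 1 1 m A B ∧ Inequivalent 1 1 m A B) ∧
    (∀ N p q w e D k c g m : ℕ, Weights N p q w q e D (k * p) → 1 ≤ k → c * p = D * q →
      m * w = D * q → g * N + w = D * q → 2 ≤ m →
      ∃ (a : ℂ) (A B : MvPolynomial (Fin 3) ℂ), QuasiSmooth (symForm e k c D g m a) ∧
        Member N p q w q e D A B (symForm e k c D g m a) ∧
        (∀ s : Finset (Pt (weightedHypersurface ![N, p, q, w, q] (symForm e k c D g m a)) 1),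
          AllCones p q q A B s → s.card = D ∧ Exchangeable _ s) ∧
        ProductsTorsion ![N, p, q, w, q] (symForm e k c D g m a) D) ∧
    ∀ D : ℕ, 2 ≤ D → Weights 1 1 1 1 1 1 D ((D - 1) * 1) := by
  refine ⟨fun N p q w r e D k A B F hW hF => conclusion hW hF, ?_, ?_, ?_, ?_, ?_⟩
  · intro N p q w r e D k l F hW hk hM hF h4 h0
    obtain ⟨h1, h2⟩ := numerical hW hk hM hF h4 h0
    refine ⟨⟨_, _, h1, h2⟩, ?_⟩
    obtain ⟨s, -, -, -, h3, h4, -⟩ := conclusion hW h1
    exact ⟨h3 h2, h4 (h3 h2)⟩
  · intro e a b he ha hb hab hN
    exact ⟨family_weights he ha hb hN, family_numerical he ha hb hab hN,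
      family_member he ha hb hab hN⟩
  · intro m hm
    exact smooth_member hm
  · intro N p q w e D k c g m hW hk hc hm hg hm2
    obtain ⟨a, A, B, h1, h2, h3⟩ := sym_member hW hk hc hm hg hm2
    refine ⟨a, A, B, h1, h2, h3, ?_⟩
    obtain ⟨s, hs, -, -, -, -, h4⟩ := conclusion hW h2
    exact h4 (h3 s hs).2 D (h3 s hs).1.le
  · intro D hD
    exact ⟨le_rfl, le_rfl, le_rfl, le_rfl, le_rfl, dvd_rfl, dvd_rfl, dvd_rfl, Nat.coprime_one_right 1,
      Nat.gcd_dvd_left 1 _ |>.trans dvd_rfl, by omega, hD⟩

end Pool.Agent.Results.MP_bf8edd_ag.ConeCurves
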