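import Pool.Agent.RCH.DSAsm
import Pool.Agent.RCH.DSSupE
import Pool.Agent.RCH.DSEx1
import Pool.Agent.RCH.DSEx2
import Pool.Agent.RCH.DSEx3

/-!
# Smash-nilpotent one-cycles on double covers of projective space

The Chow groups are the classical ones, with rational coefficients written as nonzero multiples: the
definitions are in `Pool/Agent/RCH/Defs.lean` (`Pt X N`: integral subschemes of `X^N`, as
multihomogeneous prime ideals; `Cycles`, `CodimOne`, `box`, `extPow`, `boxC`) and in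
`Pool/Agent/RCH/WtDefs.lean` (`localRing X P Q`: the local ring of the variety `P` at `Q`; `ordIn`:
order of vanishing; `IsDiv`: divisor of a rational function; `RatEq X N`: the cycles on `X^N`
rationally equivalent to zero; `IsSmashNilpotent`). `degree` (`DgDefs.lean`): the degree of a one-cycle.
`MSym`, `tr1` (`AutBox.lean`): monomial symmetries and their action on the integral subschemes.
`doubleSolid`, `lin`, `branch`, `curveIdeal`: see `Pool/Agent/RCH/DSDefs.lean`.

**Proof.** Let `u = p x_0 + s` and `v = r x_0 + q`, let `Y` be the surface `y² = u v` in the section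
`x_3 = 0` of the double cover `X : y² = u v + x_3 P`, and let `V` be the fibre product of `Y` with itself
over the projective line with coordinates `x_1, x_2`.

* The divisor of `x_3^m / y` on the diagonal of `X`, minus its divisor on the graph of the involution
  `i` of `X`, is `m` times the class of the diagonal of `Y` minus the graph of `i` on `Y`.
* The rational function `(y u' - y' u) / (y u' + y' u)` on `V` is `(a - a') / (a + a')` with
  `a = y / u`, and `a² = v / u` is a Möbius transformation of `x_0` with determinant `p q - s r`. Its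
  divisor is the diagonal of `Y`, minus the graph of `i` on `Y`, plus the sum over the roots of
  `p q - s r` of the multiplicity times `C⁺ × C⁺ + C⁻ × C⁻ - C⁺ × C⁻ - C⁻ × C⁺`. This is (1).
* `x_0 = (q - s a²) / (p a² - r)` and `u = (p q - s r) / (p a² - r)`: outside `u (p q - s r) = 0` the
  homogeneous prime ideals of `Y` are those of `ℂ[x_1, x_2, a]`, where the ones of height one are
  generated by one element. The curves of `Y` in `p q - s r = 0` are the `C_k⁺` and `C_k⁻`, and only one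
  curve of `Y` lies in `u = 0`, as `p` and `s` have no common root and `p` is not zero. This is (2).
* A symmetry `g` of `X`, applied to the first factor, turns `∑ z_k × z_k` into `∑ g(z_k) × z_k`, and if
  the symmetries act on the roots as a dihedral group these relations kill all products of
  `N > (t + 1) / 2` of the `z_k`, up to torsion: a function on `(ℤ/t)^N` whose sums over the lines in the
  directions `e_i + e_j` and `e_i - e_j` are zero is zero, as each character is orthogonal to one of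
  these directions. This is (3).

Rows by helpers 9, 15, 47, 64, 73, 81, 88 and 98; `Wt*.lean`, `Dg*.lean` (comparison of the orders with
those in the homogeneous coordinate ring; the degree): helpers 7, 64, 73 and 98.
-/

set_option autoImplicit false

open MvPolynomial

namespace Pool.Agent.Results.MP_bf8edd_ag.DoubleSolids

open Pool.Agent.RCH

/-- The hypotheses on the binary forms `p, s, r, q`, the roots `(a_k, b_k)` of `p q - s r`, their
multiplicities `n_k`, the constant `κ` and the square roots `c_k` of the ratio of `(r, q)` to `(p, s)` at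
the roots. -/
structure Pencil (m t : ℕ) (p s r q : MvPolynomial (Fin 2) ℂ) (a b c : Fin t → ℂ) (n : Fin t → ℕ)
    (κ : ℂ) : Prop where
  hm : 1 ≤ m
  hp : p.IsHomogeneous (m - 1)
  hs : s.IsHomogeneous m
  hr : r.IsHomogeneous (m - 1)
  hq : q.IsHomogeneous m
  hκ : κ ≠ 0
  hW : p * q - s * r = C κ * ∏ k, (C (b k) * X 0 - C (a k) * X 1) ^ n k
  hab : ∀ k, a k ≠ 0 ∨ b k ≠ 0
  hsep : ∀ j k, j ≠ k → b j * a k - a j * b k ≠ 0
  hc : ∀ k, c k ≠ 0
  hrp : ∀ k, eval ![a k, b k] r = c k ^ 2 * eval ![a k, b k] p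
  hqs : ∀ k, eval ![a k, b k] q = c k ^ 2 * eval ![a k, b k] s
  hps : ∀ k, eval ![a k, b k] p ≠ 0 ∨ eval ![a k, b k] s ≠ 0

/-- The one-cycle `D` on the double cover `X : y² = f` is supported on the section `x_3 = 0`. -/
def OnSection (m : ℕ) (f : MvPolynomial (Fin 4) ℂ) (D : Cycles (doubleSolid m f) 1) : Prop :=
  ∀ Q ∈ D.support, CodimOne (Ideal.span {inFactor 1 0 (X 3),
    inFactor 1 0 (X 4 ^ 2 - rename Fin.castSucc f)}) Q.I

/-- A nonzero multiple of `D` is rationally equivalent to a combination of `C⁺_j` and of the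
differences `C⁺_k - C⁻_k`. -/
def InSpan {t : ℕ} (X : WVar (Fin 5)) (Cp Cm : Fin t → Pt X 1) (j : Fin t) (D : Cycles X 1) : Prop :=
  ∃ M : ℕ, 1 ≤ M ∧ ∃ (e : ℤ) (d : Fin t → ℤ), M • D - (e • Finsupp.single (Cp j) 1 +
    ∑ k, d k • (Finsupp.single (Cp k) 1 - Finsupp.single (Cm k) 1)) ∈ RatEq X 1

/-- All `n_k` are equal and two monomial symmetries of `X : y² = f` map, for each sign, the curve over
the `k`-th root to the curve over the root `k + 1`, respectively `-k` (indices modulo `t`). -/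
def Symmetric (m t : ℕ) (f : MvPolynomial (Fin 4) ℂ) (p s : MvPolynomial (Fin 2) ℂ)
    (a b c : Fin t → ℂ) (n : Fin t → ℕ) : Prop :=
  (∀ j k, n j = n k) ∧ ∃ γ δ : MSym (doubleSolid m f), ∀ (j k : Fin t) (ε : ℂ)
    (Q Q' : Pt (doubleSolid m f) 1), ε ^ 2 = 1 → Q.I = curveIdeal p s (a k) (b k) (ε * c k) →
      Q'.I = curveIdeal p s (a j) (b j) (ε * c j) →
        ((j : ℕ) ≡ k + 1 [MOD t] → tr1 γ Q = Q') ∧ ((j : ℕ) + k ≡ 0 [MOD t] → tr1 δ Q = Q')

/-- Every product of `N` one-cycles of degree zero supported on the section `x_3 = 0` of `X : y² = f`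
has a nonzero multiple rationally equivalent to zero, and all these one-cycles are smash-nilpotent. -/
def Nilpotent (m : ℕ) (f : MvPolynomial (Fin 4) ℂ) (N : ℕ) : Prop :=
  (∀ D : Fin N → Cycles (doubleSolid m f) 1, (∀ i, OnSection m f (D i) ∧ degree _ (D i) = 0) →
    ∃ M : ℕ, 1 ≤ M ∧ M • boxC (doubleSolid m f) D ∈ RatEq (doubleSolid m f) N) ∧
  ∀ D : Cycles (doubleSolid m f) 1, OnSection m f D → degree _ D = 0 →
    IsSmashNilpotent (doubleSolid m f) D

/-- The conclusion for the double cover `X : y² = f`. The curves `C⁺_k`, `C⁻_k`: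
`b_k x_1 - a_k x_2 = x_3 = 0`, `y = ± c_k (p x_0 + s)` are on `X` and different, and
`m ∑ n_k (C⁺_k - C⁻_k) × (C⁺_k - C⁻_k)` is rationally equivalent to zero on `X × X`. Every one-cycle
supported on `x_3 = 0` is, up to a multiple and rational equivalence, a combination of one of the curves
and of the differences. If `t = 1` or in the symmetric case, all one-cycles of degree zero supported on
`x_3 = 0` are smash-nilpotent, and the products of `N` of them are torsion, for `t + 1 < 2 N`. -/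
def Conclusion (m t : ℕ) (f : MvPolynomial (Fin 4) ℂ) (p s : MvPolynomial (Fin 2) ℂ)
    (a b c : Fin t → ℂ) (n : Fin t → ℕ) : Prop :=
  ∃ Cp Cm : Fin t → Pt (doubleSolid m f) 1,
    (∀ k, (Cp k).I = curveIdeal p s (a k) (b k) (c k) ∧
      (Cm k).I = curveIdeal p s (a k) (b k) (-c k) ∧ Cp k ≠ Cm k) ∧
    m • ∑ k, n k • extPow (doubleSolid m f)
      (Finsupp.single (Cp k) 1 - Finsupp.single (Cm k) 1) 2 ∈ RatEq (doubleSolid m f) 2 ∧
    (∀ D, OnSection m f D → ∀ j, InSpan (doubleSolid m f) Cp Cm j D) ∧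
    (t = 1 ∨ Symmetric m t f p s a b c n → ∀ N : ℕ, t + 1 < 2 * N → Nilpotent m f N)

/-- The double cover `y² = f` of projective space is smooth: the partial derivatives of `y² - f` have no
common zero outside the origin. -/
def Smooth (f : MvPolynomial (Fin 4) ℂ) : Prop :=
  ∀ v : Fin 5 → ℂ, (∀ l, eval v (pderiv l (X 4 ^ 2 - rename Fin.castSucc f)) = 0) → v = 0

/-- the data of the general theory -/
def Pencil.data {m t : ℕ} {p s r q : MvPolynomial (Fin 2) ℂ} {a b c : Fin t → ℂ} {n : Fin t → ℕ}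
    {κ : ℂ} (h : Pencil m t p s r q a b c n κ) (P : MvPolynomial (Fin 4) ℂ)
    (hP : P.IsHomogeneous (2 * m - 1)) : DSData :=
  ⟨m, h.hm, p, s, r, q, P, h.hp, h.hs, h.hr, h.hq, hP, t, a, b, n, κ, h.hκ, h.hW, h.hab, h.hsep,
    c, h.hc, h.hrp, h.hqs, h.hps⟩

lemma curve_eq (S : DSData) (k : Fin S.t) (b : Bool) :
    (S.pC k b).I = curveIdeal S.p S.s (S.al k) (S.be k) (DSData.sgn b * S.ga k) := by
  rw [S.pC_I, curveIdeal]
  have h1 : inFactor 1 0 (C (S.be k) * X 1 - C (S.al k) * X 2 : MvPolynomial (Fin 5) ℂ) =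
      S.elli 0 k := by
    simp only [DSData.elli, inFactor, map_sub, map_mul, rename_C, rename_X]
  have h2 : inFactor 1 0 (X 3 : MvPolynomial (Fin 5) ℂ) = X (0, 3) := by
    rw [inFactor, rename_X]
  have h4 : inFactor 1 0 (X 4 : MvPolynomial (Fin 5) ℂ) = X (0, 4) := by
    rw [inFactor, rename_X]
  have h5 : inFactor 1 0 (C (DSData.sgn b * S.ga k) : MvPolynomial (Fin 5) ℂ) =
      C (DSData.sgn b * S.ga k) := by
    rw [inFactor, rename_C]
  have h3 : inFactor 1 0 (X 4 - C (DSData.sgn b * S.ga k) *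
      rename Fin.castSucc (lin S.p S.s) : MvPolynomial (Fin 5) ℂ) =
      S.crv 0 k (DSData.sgn b) := by
    rw [DSData.crv, S.uu_eq_inFactor, map_sub, map_mul, h4, h5]
  rw [h1, h2, h3]

lemma onSection_iff (S : DSData) (D : Cycles S.V 1) :
    OnSection S.m (branch S.p S.s S.r S.q S.P) D ↔ S.OnY D := by
  have e := S.pY_eq
  constructor
  · intro h Q hQ
    rw [e]
    exact h Q hQ
  · intro h Q hQ
    have h1 := h Q hQ
    rw [e] at h1
    exact h1

/-- the sum of the multiplicities -/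
lemma sum_n (S : DSData) : ∑ k, S.n k = 2 * S.m - 1 := by
  have h1 := S.W_hom
  have h2 : (S.p * S.q - S.s * S.r).IsHomogeneous (∑ k, S.n k) := by
    rw [S.hW]
    have h3 := IsHomogeneous.prod (R := ℂ) (σ := Fin 2) Finset.univ
      (fun k => (C (S.be k) * X 0 - C (S.al k) * X 1) ^ S.n k) S.n (fun k _ => by
        have g2 := (isHomogeneous_C (Fin 2) (S.be k)).mul (isHomogeneous_X ℂ (0 : Fin 2))
        have g3 := (isHomogeneous_C (Fin 2) (S.al k)).mul (isHomogeneous_X ℂ (1 : Fin 2))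
        rw [zero_add] at g2 g3
        have g4 := (g2.sub g3).pow (S.n k)
        rwa [one_mul] at g4)
    have g4 := (isHomogeneous_C (Fin 2) S.ka).mul h3
    rwa [zero_add] at g4
  exact h2.inj_right h1 S.W_ne_zero

theorem main (S : DSData) :
    Conclusion S.m S.t (branch S.p S.s S.r S.q S.P) S.p S.s S.al S.be S.ga S.n := by
  have hgen : ∀ (k₀ : Fin S.t) (D : Cycles S.V 1), S.OnY D → S.Gen k₀ D :=
    fun k₀ D hD => S.supported k₀ D hD
  refine ⟨fun k => S.pC k true, fun k => S.pC k false, fun k => ⟨?_, ?_, S.pC_ne k⟩, ?_, ?_, ?_⟩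
  · have h := curve_eq S k true
    have h1 : DSData.sgn true * S.ga k = S.ga k := one_mul _
    rwa [h1] at h
  · have h := curve_eq S k false
    have h1 : DSData.sgn false * S.ga k = -S.ga k := neg_one_mul _
    rwa [h1] at h
  · have h := S.main_relation
    rw [S.rat_eq] at h
    exact h
  · intro D hD j
    obtain ⟨M, hM, e, d, h⟩ := hgen j D ((onSection_iff S D).1 hD)
    rw [S.rat_eq] at h
    exact ⟨M, hM, e, d, h⟩
  · intro hsym N hN
    have hN1 : 1 ≤ N := by omega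
    have hprod : ∀ k : Fin N → Fin S.t, boxC S.V (fun i => S.zz (k i)) ∈ torZero S.V N := by
      rcases hsym with ht | ⟨hn, γ, δ, h⟩
      · exact S.nil_one ht (by omega)
      · have hodd : Odd S.t := by
          have h1 := sum_n S
          rw [Finset.sum_congr rfl fun k _ => hn k ⟨0, S.t_pos⟩, Finset.sum_const,
            Finset.card_univ, Fintype.card_fin, smul_eq_mul] at h1
          have h2 : Odd (S.t * S.n ⟨0, S.t_pos⟩) := by
            rw [h1]
            refine ⟨S.m - 1, ?_⟩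
            have := S.hm
            omega
          exact (Nat.odd_mul.1 h2).1
        refine S.nil hn hodd γ δ (fun j k hjk b => ?_) (fun j k hjk b => ?_) hN
        · exact (h j k (DSData.sgn b) (S.pC k b) (S.pC j b) (DSData.sgn_sq b) (curve_eq S k b)
            (curve_eq S j b)).1 hjk
        · exact (h j k (DSData.sgn b) (S.pC k b) (S.pC j b) (DSData.sgn_sq b) (curve_eq S k b)
            (curve_eq S j b)).2 hjk
    refine ⟨fun D hD => ?_, fun D hD h0 => ?_⟩
    · exact S.products (hgen ⟨0, S.t_pos⟩) hprod D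
        fun i => ⟨(onSection_iff S (D i)).1 (hD i).1, (hD i).2⟩
    · exact S.smash (hgen ⟨0, S.t_pos⟩) hN1 hprod ((onSection_iff S D).1 hD) h0

/-- the form `P` of the first example -/
lemma hom_one (m : ℕ) : (X 0 ^ (2 * m - 1) - X 3 ^ (2 * m - 1) :
    MvPolynomial (Fin 4) ℂ).IsHomogeneous (2 * m - 1) := DSEx1.hP m

/-- the example with one root -/
theorem pencil_one {m : ℕ} (hm : 2 ≤ m) : Pencil m 1 (X 0 ^ (m - 1)) (X 1 ^ m - X 0 ^ m)
    (X 0 ^ (m - 1)) (X 1 ^ m + X 0 ^ m) (fun _ => 0) (fun _ => 1) (fun _ => 1)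
    (fun _ => 2 * m - 1) 2 :=
  ⟨by omega, (DSEx1.data m hm).hp, (DSEx1.data m hm).hs, (DSEx1.data m hm).hr,
    (DSEx1.data m hm).hq, (DSEx1.data m hm).hka, (DSEx1.data m hm).hW, (DSEx1.data m hm).hne,
    (DSEx1.data m hm).hsep, (DSEx1.data m hm).hga, (DSEx1.data m hm).hrp,
    (DSEx1.data m hm).hqs, (DSEx1.data m hm).hps⟩

/-- the form `P` of the second example -/
lemma hom_all (m : ℕ) : (X 0 ^ (2 * m - 1) + C ((-1) ^ m) * X 3 ^ (2 * m - 1) :
    MvPolynomial (Fin 4) ℂ).IsHomogeneous (2 * m - 1) := by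
  have h1 : ∀ i : Fin 4, (X i ^ (2 * m - 1) : MvPolynomial (Fin 4) ℂ).IsHomogeneous
      (2 * m - 1) := by
    intro i
    have h := (isHomogeneous_X ℂ i).pow (2 * m - 1)
    rwa [one_mul] at h
  have h2 := (isHomogeneous_C (Fin 4) ((-1 : ℂ) ^ m)).mul (h1 3)
  rw [zero_add] at h2
  exact (h1 0).add h2

/-- the example with `2 m - 1` roots -/
theorem pencil_all {m : ℕ} (hm : 2 ≤ m) {ζ : ℂ} (hζ : IsPrimitiveRoot ζ (2 * m - 1)) :
    Pencil m (2 * m - 1) (X 0 ^ (m - 1)) (-X 1 ^ m) (X 1 ^ (m - 1)) (X 0 ^ m)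
      (fun k => -ζ ^ (k : ℕ)) (fun _ => 1) (fun k => Complex.I ^ (m - 1) * ζ ^ (m ^ 2 * (k : ℕ)))
      (fun _ => 1) 1 := by
  obtain ⟨k, rfl⟩ : ∃ k, m = k + 2 := ⟨m - 2, by omega⟩
  have hζ' : IsPrimitiveRoot ζ (2 * k + 3) := hζ
  exact ⟨by omega, (DSEx2.data k ζ hζ').hp, (DSEx2.data k ζ hζ').hs, (DSEx2.data k ζ hζ').hr,
    (DSEx2.data k ζ hζ').hq, (DSEx2.data k ζ hζ').hka, (DSEx2.data k ζ hζ').hW,
    (DSEx2.data k ζ hζ').hne, (DSEx2.data k ζ hζ').hsep, (DSEx2.data k ζ hζ').hga,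
    (DSEx2.data k ζ hζ').hrp, (DSEx2.data k ζ hζ').hqs, (DSEx2.data k ζ hζ').hps⟩

/-- the symmetries of the example with `2 m - 1` roots -/
theorem symmetric_all {m : ℕ} (hm : 2 ≤ m) {ζ : ℂ} (hζ : IsPrimitiveRoot ζ (2 * m - 1)) :
    Symmetric m (2 * m - 1) (branch (X 0 ^ (m - 1)) (-X 1 ^ m) (X 1 ^ (m - 1)) (X 0 ^ m)
      (X 0 ^ (2 * m - 1) + C ((-1) ^ m) * X 3 ^ (2 * m - 1))) (X 0 ^ (m - 1)) (-X 1 ^ m)
      (fun k => -ζ ^ (k : ℕ)) (fun _ => 1) (fun k => Complex.I ^ (m - 1) * ζ ^ (m ^ 2 * (k : ℕ)))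
      (fun _ => 1) := by
  set S := (pencil_all hm hζ).data _ (hom_all m) with hS
  have H : DSData.Dih S ζ := ⟨hζ.pow_eq_one, rfl, rfl, rfl, rfl, rfl, rfl, fun _ => rfl,
    fun _ => rfl, fun _ => rfl⟩
  refine ⟨fun _ _ => rfl, H.rot, H.refl, fun j k ε Q Q' hε hQ hQ' => ?_⟩
  obtain ⟨b, rfl⟩ : ∃ b : Bool, ε = DSData.sgn b := by
    rcases sq_eq_one_iff.1 hε with h | h
    · exact ⟨true, h⟩
    · exact ⟨false, h⟩
  have h1 : Q = S.pC k b := Pt.ext' _ (hQ.trans (curve_eq S k b).symm)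
  have h2 : Q' = S.pC j b := Pt.ext' _ (hQ'.trans (curve_eq S j b).symm)
  rw [h1, h2]
  exact ⟨fun hjk => H.tr_rot hjk b, fun hjk => H.tr_refl hjk b⟩

/-- **Smash-nilpotent one-cycles on double covers of projective space.** Let `p, r` be binary forms of
degree `m - 1` and `s, q` binary forms of degree `m` in `x_1, x_2`, with `p q - s r = κ ∏ ℓ_k ^ n_k`,
`κ ≠ 0`, with linear forms `ℓ_k = b_k x_1 - a_k x_2`, `k < t`, pairwise not proportional, and such that at
each root `(a_k, b_k)` the pair `(r, q)` is `c_k²` times the pair `(p, s)`, both not zero (`Pencil`). Let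
`P` be any form of degree `2 m - 1` in `x_0, x_1, x_2, x_3` and let `X` be the double cover
`y² = (p x_0 + s) (r x_0 + q) + x_3 P` of projective space.

(1) (`Conclusion`) Let `C_k⁺` and `C_k⁻` be the curves `ℓ_k = x_3 = 0`, `y = ± c_k (p x_0 + s)` on `X`.
Then `m ∑ n_k (C_k⁺ - C_k⁻) × (C_k⁺ - C_k⁻)` is rationally equivalent to zero on `X × X`. Every one-cycle
supported on the section `x_3 = 0` has, for each `j`, a nonzero multiple rationally equivalent to an
integer combination of `C_j⁺` and of the `C_k⁺ - C_k⁻`. If `t = 1`, or if all `n_k` are equal and two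
monomial symmetries of `X` map `C_k⁺, C_k⁻` to `C_(k+1)⁺, C_(k+1)⁻`, respectively to
`C_(-k)⁺, C_(-k)⁻` (`Symmetric`), then all one-cycles of degree zero supported on the section are
smash-nilpotent, and all products of `N` of them are torsion, for `N > (t + 1) / 2`.

(2) For every `m ≥ 2` the double cover
`y² = (x_1 ^ (m-1) x_0 + x_2 ^ m) ^ 2 - x_1 ^ (2 m) + x_3 (x_0 ^ (2 m - 1) - x_3 ^ (2 m - 1))` is smooth and
as above with `t = 1`.

(3) For every `m ≥ 2` the double cover `y² = (x_1 ^ (m-1) x_0 - x_2 ^ m) (x_2 ^ (m-1) x_0 + x_1 ^ m) +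
x_3 (x_0 ^ (2 m - 1) + (-1) ^ m x_3 ^ (2 m - 1))` is smooth and as above with `t = 2 m - 1`, all `n_k = 1`,
in the symmetric case. -/
theorem result :
    (∀ (m t : ℕ) (p s r q : MvPolynomial (Fin 2) ℂ) (a b c : Fin t → ℂ) (n : Fin t → ℕ) (κ : ℂ)
      (P : MvPolynomial (Fin 4) ℂ), Pencil m t p s r q a b c n κ → P.IsHomogeneous (2 * m - 1) →
        Conclusion m t (branch p s r q P) p s a b c n) ∧
    (∀ m : ℕ, 2 ≤ m →
      Pencil m 1 (X 0 ^ (m - 1)) (X 1 ^ m - X 0 ^ m) (X 0 ^ (m - 1)) (X 1 ^ m + X 0 ^ m)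
        (fun _ => 0) (fun _ => 1) (fun _ => 1) (fun _ => 2 * m - 1) 2 ∧
      (X 0 ^ (2 * m - 1) - X 3 ^ (2 * m - 1) : MvPolynomial (Fin 4) ℂ).IsHomogeneous (2 * m - 1) ∧
      Smooth (branch (X 0 ^ (m - 1)) (X 1 ^ m - X 0 ^ m) (X 0 ^ (m - 1)) (X 1 ^ m + X 0 ^ m)
        (X 0 ^ (2 * m - 1) - X 3 ^ (2 * m - 1)))) ∧
    ∀ (m : ℕ) (ζ : ℂ), 2 ≤ m → IsPrimitiveRoot ζ (2 * m - 1) →
      Pencil m (2 * m - 1) (X 0 ^ (m - 1)) (-X 1 ^ m) (X 1 ^ (m - 1)) (X 0 ^ m)
        (fun k => -ζ ^ (k : ℕ)) (fun _ => 1)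
        (fun k => Complex.I ^ (m - 1) * ζ ^ (m ^ 2 * (k : ℕ))) (fun _ => 1) 1 ∧
      (X 0 ^ (2 * m - 1) + C ((-1) ^ m) * X 3 ^ (2 * m - 1) :
        MvPolynomial (Fin 4) ℂ).IsHomogeneous (2 * m - 1) ∧
      Symmetric m (2 * m - 1) (branch (X 0 ^ (m - 1)) (-X 1 ^ m) (X 1 ^ (m - 1)) (X 0 ^ m)
        (X 0 ^ (2 * m - 1) + C ((-1) ^ m) * X 3 ^ (2 * m - 1))) (X 0 ^ (m - 1)) (-X 1 ^ m)
        (fun k => -ζ ^ (k : ℕ)) (fun _ => 1)
        (fun k => Complex.I ^ (m - 1) * ζ ^ (m ^ 2 * (k : ℕ))) (fun _ => 1) ∧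
      Smooth (branch (X 0 ^ (m - 1)) (-X 1 ^ m) (X 1 ^ (m - 1)) (X 0 ^ m)
        (X 0 ^ (2 * m - 1) + C ((-1) ^ m) * X 3 ^ (2 * m - 1))) := by
  refine ⟨fun m t p s r q a b c n κ P h hP => main (h.data P hP), fun m hm =>
    ⟨pencil_one hm, hom_one m, fun v hv => DSEx1.smooth hm v hv⟩, fun m ζ hm hζ =>
    ⟨pencil_all hm hζ, hom_all m, symmetric_all hm hζ, ?_⟩⟩
  obtain ⟨k, rfl⟩ : ∃ k, m = k + 2 := ⟨m - 2, by omega⟩
  intro v hv
  have h : ((-1 : ℂ)) ^ (k + 2) = (-1) ^ k := by rw [pow_add]; norm_num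
  rw [h] at hv
  exact DSEx2.smooth k v hv

end Pool.Agent.Results.MP_bf8edd_ag.DoubleSolids
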