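import Pool.Agent.RCH.DwFin
import Pool.Agent.RCH.WtApp

/-!
# Smash-nilpotence of differences of conics on the Dwork pencil of quintic threefolds

Classical Chow groups: the definitions are in `Pool/Agent/RCH/Defs.lean` (integral subschemes of `X^N`,
algebraic cycles, products, exterior powers) and in `Pool/Agent/RCH/WtDefs.lean` (`localRing`: the
local ring of a variety `P` at `Q`; `ordIn`: order of vanishing; `IsDiv`: divisor of a rational
function; `RatEq`: rational equivalence; `IsSmashNilpotent`). In the proof the orders of vanishing are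
computed in the homogeneous coordinate rings (`ordAt`), which is the same here
(`Pool/Agent/RCH/WtApp.lean`).
-/

set_option autoImplicit false

open MvPolynomial

namespace Pool.Agent.Results.MP_bf8edd_ag.DworkConics

open Pool.Agent.RCH

/-- The quintic threefold `x_0 ^ 5 + ⋯ + x_4 ^ 5 = 5 ψ x_0 x_1 x_2 x_3 x_4` in the projective space of
dimension four. -/
noncomputable def quinticThreefold (ψ : ℂ) : WVar (Fin 5) where
  wt := fun _ => 1
  eqs := Ideal.span {X 0 ^ 5 + X 1 ^ 5 + X 2 ^ 5 + X 3 ^ 5 + X 4 ^ 5 -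
    C (5 * ψ) * (X 0 * X 1 * X 2 * X 3 * X 4)}

/-- The ideal of the conic `x_1 = - α x_0`, `x_2 = - β x_3`, `x_4 ^ 2 = μ x_0 x_3`, up to a permutation
`π` of the coordinates. -/
noncomputable def conicIdeal (π : Equiv.Perm (Fin 5)) (α β μ : ℂ) : Ideal (Coord (Fin 5) 1) :=
  Ideal.span {X (0, π 1) + C α * X (0, π 0), X (0, π 2) + C β * X (0, π 3),
    X (0, π 4) ^ 2 - C μ * (X (0, π 0) * X (0, π 3))}

/-- `P - Q` is the difference of the two conics in which, besides a line, the quintic threefold meets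
the plane `x_1 = - α x_0`, `x_2 = - β x_3` (up to a permutation of the coordinates; `α ^ 5 = β ^ 5 = 1`). -/
def IsConicDifference (ψ : ℂ) (z : Cycles (quinticThreefold ψ) 1) : Prop :=
  ∃ (π : Equiv.Perm (Fin 5)) (α β μ : ℂ) (P Q : Pt (quinticThreefold ψ) 1),
    α ^ 5 = 1 ∧ β ^ 5 = 1 ∧ μ ^ 2 = 5 * ψ * α * β ∧ P.I = conicIdeal π α β μ ∧
      Q.I = conicIdeal π α β (-μ) ∧ z = Finsupp.single P 1 - Finsupp.single Q 1

lemma conicIdeal_one {c μ : ℂ} [hc : Fact (c ≠ 0)] (hμ : μ ^ 10 = c ^ 5) :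
    (Dw.cn (c := c) hμ).I = conicIdeal 1 1 (μ ^ 2 / c) μ := by
  rw [Dw.cn_ideal, conicIdeal]
  have h : (X (0, (1 : Equiv.Perm (Fin 5)) 1) + C 1 * X (0, (1 : Equiv.Perm (Fin 5)) 0) :
      Coord (Fin 5) 1) = X (0, 0) + X (0, 1) := by
    rw [C_1, one_mul, add_comm]
    rfl
  rw [h]
  rfl

lemma sum_eq {c θ : ℂ} [hc : Fact (c ≠ 0)] (hθ : θ ^ 2 = c ^ 5) (M : Finset ℂ)
    (hM : ∀ μ : ℂ, μ ∈ M ↔ μ ^ 10 = c ^ 5) (K : ℂ → Pt (Dw.V c) 1)
    (hK : ∀ μ ∈ M, (K μ).I = conicIdeal 1 1 (μ ^ 2 / c) μ) :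
    (∑ μ ∈ M with μ ^ 5 = θ, Finsupp.single (K μ) (1 : ℤ)) -
      (∑ μ ∈ M with μ ^ 5 = -θ, Finsupp.single (K μ) 1) =
    ∑ m : Dw.Mu c, (if m.1 ^ 5 = θ then (1 : ℤ) else -1) • Finsupp.single (Dw.cu m) 1 := by
  have hθ0 : θ ≠ 0 := by
    rintro rfl
    rw [zero_pow (by norm_num)] at hθ
    exact hc.out (pow_eq_zero_iff (n := 5) (by norm_num) |>.mp hθ.symm)
  have h1 : ∑ m : Dw.Mu c, (if m.1 ^ 5 = θ then (1 : ℤ) else -1) • Finsupp.single (Dw.cu m) 1 =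
      ∑ μ ∈ M, (if μ ^ 5 = θ then (1 : ℤ) else -1) • Finsupp.single (K μ) (1 : ℤ) := by
    refine Finset.sum_bij (fun m _ => m.1) (fun m _ => (hM m.1).mpr m.2)
      (fun a _ b _ h => Subtype.ext h) (fun μ hμ => ⟨⟨μ, (hM μ).mp hμ⟩, Finset.mem_univ _, rfl⟩)
      (fun m _ => ?_)
    have h2 : Dw.cu m = K m.1 := Pt.ext' _ ((conicIdeal_one m.2).trans (hK _ ((hM _).mpr m.2)).symm)
    rw [h2]
  rw [h1, Finset.sum_filter, Finset.sum_filter, ← Finset.sum_sub_distrib]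
  refine Finset.sum_congr rfl fun μ hμ => ?_
  have h3 : (μ ^ 5 - θ) * (μ ^ 5 + θ) = 0 := by
    have h4 := (hM μ).mp hμ
    linear_combination h4 - hθ
  by_cases h5 : μ ^ 5 = θ
  · have h6 : μ ^ 5 ≠ -θ := by
      intro h7
      rw [h5] at h7
      exact hθ0 (by linear_combination (1 / 2 : ℂ) * h7)
    rw [if_pos h5, if_neg h6, if_pos h5, sub_zero, one_smul]
  · have h6 : μ ^ 5 = -θ := by
      rcases mul_eq_zero.mp h3 with h7 | h7
      · exact absurd (by linear_combination h7) h5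
      · linear_combination h7
    rw [if_neg h5, if_pos h6, if_neg h5, zero_sub, neg_smul, one_smul]

theorem result (ψ : ℂ) (hψ : ψ ≠ 0) :
    (∀ (π : Equiv.Perm (Fin 5)) (α β μ : ℂ), α ^ 5 = 1 → β ^ 5 = 1 → μ ^ 2 = 5 * ψ * α * β →
      ∃ P : Pt (quinticThreefold ψ) 1, P.I = conicIdeal π α β μ) ∧
    (∀ (a : Cycles (quinticThreefold ψ) 1) (k : ℕ), 1 ≤ k →
      k • a ∈ AddSubgroup.closure {z | IsConicDifference ψ z} ⊔ RatEq (quinticThreefold ψ) 1 →
      IsSmashNilpotent (quinticThreefold ψ) a) ∧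
    ∀ (θ : ℂ), θ ^ 2 = (5 * ψ) ^ 5 → ∀ (M : Finset ℂ), (∀ μ : ℂ, μ ∈ M ↔ μ ^ 10 = (5 * ψ) ^ 5) →
      ∀ K : ℂ → Pt (quinticThreefold ψ) 1,
        (∀ μ ∈ M, (K μ).I = conicIdeal 1 1 (μ ^ 2 / (5 * ψ)) μ) →
      ∀ a : Cycles (quinticThreefold ψ) 1,
        a = (∑ μ ∈ M with μ ^ 5 = θ, Finsupp.single (K μ) 1) -
          (∑ μ ∈ M with μ ^ 5 = -θ, Finsupp.single (K μ) 1) →
        extPow (quinticThreefold ψ) a 2 ∈ RatEq (quinticThreefold ψ) 2 := by
  have hc : 5 * ψ ≠ 0 := mul_ne_zero (by norm_num) hψ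
  have : Fact (5 * ψ ≠ 0) := ⟨hc⟩
  have hR : ∀ N, RatZero (quinticThreefold ψ) N = RatEq (quinticThreefold ψ) N :=
    Wt.ratZero_of_wt_one fun _ => rfl
  refine ⟨?_, ?_, ?_⟩
  · intro π α β μ hα hβ hμ
    exact Dw.main_general.1 π α β μ hα hβ hμ
  · intro a k hk ha
    rw [← Wt.smashNilpotent_iff_of_eq hR]
    rw [← hR] at ha
    obtain ⟨a1, h1, a2, h2, h3⟩ := AddSubgroup.mem_sup.mp ha
    have h4 : SmashNilpotent (quinticThreefold ψ) (a1 + a2) :=
      SmashNilpotent.add (quinticThreefold ψ) (Dw.main_general.2 a1 h1)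
        (smashNilpotent_of_torZero (torZero_of_ratZero h2))
    rw [h3] at h4
    exact smashNilpotent_of_smul hk h4
  · rintro θ hθ M hM K hK a rfl
    have h := Dw.extPow_two_mem hθ
    rw [← sum_eq hθ M hM K hK] at h
    rw [← hR]
    exact h

end Pool.Agent.Results.MP_bf8edd_ag.DworkConics
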