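import Pool.Agent.RCH.KsAll

/-!
# Hypersurfaces with linear spaces: all cycles supported on a hyperplane section

Real Chow groups: the definitions are in `Pool/Agent/RCH/Defs.lean` (algebraic cycles on `X^N`,
exterior powers), `Pool/Agent/RCH/WtDefs.lean` (`RatEq`, rational equivalence, with the orders of
vanishing in the local rings; `IsSmashNilpotent`), `Pool/Agent/RCH/Aut.lean` (`MSym`, monomial
symmetries), `Pool/Agent/RCH/AutBox.lean` (`tr1`, their action; `boxC`, the product of `N` cycles),
`Pool/Agent/RCH/DgDefs.lean` (`hilb`, the Hilbert function), `Pool/Agent/RCH/KpDefs.lean` (`hyp`, `cx`,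
`planesPoly`, `spaceIdeal`), `Pool/Agent/RCH/KcNot.lean` (`stdIdeal`) and
`Pool/Agent/RCH/KsDefs.lean` (`degreeIn`, the degree in each dimension; `Supported`, `NullOn`, `Comb`,
`SectionGenerated`, `ProductsTorsion`, `SectionNilpotent`, `SymRelation`, `Dihedral`).

Cycles supported on the section `Y` of `X` by `x_(2r+4) = 0`. Cut `Y` successively by `x_1`, `x_3`, ...,
`x_(2r+1)`. On the complement of `x_(2i+1) = 0` in `Y ∩ {x_1 = x_3 = … = x_(2i-1) = 0}` the equation is
solved for `x_(2i)`, on which no form `g_l` with `l ≥ i` depends, so this complement is an affine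
space, and so is the complement of a hyperplane in a linear space. A cycle on an affine space is
principal up to a multiple of the whole space (`cyl_step`: induction on the number of variables,
projecting away one coordinate). Hence the image of the Chow group of `Y` in the Chow group of `X` is
generated by one cycle in each dimension and by the linear spaces `l_k`. The degree of a cycle is
computed from the Hilbert series of its components; it is zero on cycles rationally equivalent to zero
(`deg_ratZero`, by helpers 64, 73 and 98).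

The relation between the `l_k`: put `n = d - 1` and let
`f_i = ∑_(l ≥ i) (x_(2l) x_(2l+1) ^ n + x_(2l+1) g_l) + φ`, where `φ` is the product of the powers of
the linear forms `x_(2r+3) - b_k x_(2r+2)`. Let `D_i` be the variety of the pairs of points with
`f_i = 0`, `x_(2l+1) = 0` for `l < i`, `x_(2r+4) = 0`, whose coordinates with index `≥ 2i` are
proportional, let `E_i` be the sum of the two products of `f_i = 0`, `x_(2l+1) = 0` for `l < i`,
`x_(2r+4) = 0` and of the linear space of the coordinates `x_0, x_2, …, x_(2i)`, and let `D_(r+1)` be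
`∑ a_k l_k × l_k`, `L = ∑ a_k l_k`, `R_i = D_i - E_i - D_(i+1)`.

* `(d - 1) R_0` is rationally equivalent to zero (the fibre square, without the diagonal, of the
  projection from the point `(1 : 0 : … : 0)`, and the diagonal).
* `R_i + (d - 1) R_(i+1)` is rationally equivalent to zero for `i < r`: it is the divisor of
  `(x_(2i+2) y_(2i+1) - y_(2i+2) x_(2i+1)) / (x_(2i+1) y_(2i+1))` on the closure of the pairs on
  `f_i = 0`, `x_(2l+1) = 0` for `l < i`, `x_(2r+4) = 0` whose coordinates with index `2i + 1` or
  `≥ 2i + 3` are proportional.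
* `R_r + d D_(r+1) - L × L` is rationally equivalent to zero (a cone over a divisor for `r = 0`).

A symmetry of `X` gives a symmetry of `X × X` which acts on the first factor only and preserves
rational equivalence. If two symmetries act on the `t` linear spaces as the dihedral group acts on the
vertices of the regular polygon, put `L = ∑ l_k`, `z_k = t l_k - L`: the sums `∑_u z_(u + s) × z_u` and
`∑_u z_(s - u) × z_u` are torsion modulo rational equivalence, for all `s` modulo `t`. For a `t`-th
root of unity `ω` put `Z_ω = ∑ ω ^ k z_k` (complex coefficients). Then `Z_1 = 0`, and a product of such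
classes on `X^N` is zero if two of the factors have equal or inverse `ω`. As `t` is odd, this is so
for all products without factor `Z_1` if `N > (t - 1) / 2`. So all products of `(t + 1) / 2` of the
`z_k` are torsion.

Rows by helpers 7, 9, 14, 15, 16, 41, 47, 64, 65, 72, 73, 81, 85, 88, 98 and 99.
-/

set_option autoImplicit false

open MvPolynomial

namespace Pool.Agent.Results.MP_bf8edd_ag.HyperplaneSections

open Pool.Agent.RCH Pool.Agent.RCH.Kp Pool.Agent.RCH.Gd Pool.Agent.RCH.Ks

/-- The conditions on the data: the `b_k` are different, the `a_k ≥ 1` have sum `n + 1`; for `i ≤ r`,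
`g_i` is a form of degree `n` in `x_(2i+1), …, x_(2r+3)` which does not vanish at the point with
`x_(2i+2) = 1` and other coordinates zero, if `i < r`, and at the points with `x_(2r+2) = 1`,
`x_(2r+3) = b_k` and other coordinates zero, if `i = r`; `P` is a form of degree `n` in all coordinates
with `P(1, 0, …, 0) ≠ 0`. -/
structure Admissible (r n : ℕ) {t : ℕ} (b : Fin t → ℂ) (a : Fin t → ℕ)
    (g : ℕ → MvPolynomial (Fin (2 * r + 5)) ℂ) (P : MvPolynomial (Fin (2 * r + 5)) ℂ) : Prop where
  slopes : Function.Injective b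
  pos : ∀ k, 1 ≤ a k
  sum : ∑ k, a k = n + 1
  form : ∀ i ≤ r, (g i).IsHomogeneous n
  vars : ∀ i ≤ r, ∀ j ∈ (g i).vars, 2 * i + 1 ≤ (j : ℕ) ∧ (j : ℕ) ≤ 2 * r + 3
  vertex : ∀ i < r, eval (Pi.single (cx r (2 * i + 2)) 1) (g i) ≠ 0
  slope : ∀ k,
    eval (Pi.single (cx r (2 * r + 2)) 1 + Pi.single (cx r (2 * r + 3)) (b k)) (g r) ≠ 0
  formP : P.IsHomogeneous n
  apex : eval (Pi.single (cx r 0) 1) P ≠ 0

/-- The hypersurface `F = 0` is smooth: the partial derivatives of `F` have no common zero except the
origin. -/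
def Smooth {r : ℕ} (F : MvPolynomial (Fin (2 * r + 5)) ℂ) : Prop :=
  ∀ v : Fin (2 * r + 5) → ℂ, v ≠ 0 → ∃ j, eval v (pderiv j F) ≠ 0

/-- The form `P = x_0 ^ n + x_(2r+4) ^ n` of the smooth examples. -/
noncomputable def exP (r n : ℕ) : MvPolynomial (Fin (2 * r + 5)) ℂ :=
  X (cx r 0) ^ n + X (cx r (2 * r + 4)) ^ n

/-- The forms `g_i` of the smooth examples with `t` linear spaces, `t` odd: `g_i = x_(2i+2) ^ n` for
`i < r` and `g_r = (x_(2r+2) x_(2r+3)) ^ ((t-1)/2) (x_(2r+2) ^ t + x_(2r+3) ^ t) ^ (a-1)`. -/
noncomputable def exForm (r n t a i : ℕ) : MvPolynomial (Fin (2 * r + 5)) ℂ :=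
  if i < r then X (cx r (2 * i + 2)) ^ n else
    (X (cx r (2 * r + 2)) * X (cx r (2 * r + 3))) ^ ((t - 1) / 2) *
      (X (cx r (2 * r + 2)) ^ t + X (cx r (2 * r + 3)) ^ t) ^ (a - 1)

lemma exP_form (r n : ℕ) : (exP r n).IsHomogeneous n := by
  have h := (isHomogeneous_X ℂ (cx r 0)).pow n
  have h' := (isHomogeneous_X ℂ (cx r (2 * r + 4))).pow n
  rw [one_mul] at h h'
  exact h.add h'

lemma exP_apex (r : ℕ) {n : ℕ} (hn : 2 ≤ n) : eval (Pi.single (cx r 0) 1) (exP r n) ≠ 0 := by
  rw [exP, map_add, map_pow, map_pow, eval_X, eval_X, Pi.single_eq_same,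
    Pi.single_eq_of_ne (cx_ne r (by omega) (by omega) (by omega)), one_pow,
    zero_pow (by omega), add_zero]
  exact one_ne_zero

lemma pow_form (r n i : ℕ) : (X (cx r i) ^ n : MvPolynomial (Fin (2 * r + 5)) ℂ).IsHomogeneous n := by
  have h := (isHomogeneous_X ℂ (cx r i)).pow n
  rwa [one_mul] at h

/-- the example with two linear spaces -/
lemma admissible_two (r n : ℕ) (hn : 2 ≤ n) :
    Admissible r n ![1, -1] ![1, n] (fun i => X (cx r (2 * i + 2)) ^ n) (exP r n) where
  slopes := by
    intro i j h
    have h1 : (1 : ℂ) ≠ -1 := by norm_num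
    fin_cases i <;> fin_cases j
    · rfl
    · exact absurd h h1
    · exact absurd h.symm h1
    · rfl
  pos := by
    intro k
    fin_cases k
    · exact le_rfl
    · show 1 ≤ n
      omega
  sum := by
    rw [Fin.sum_univ_two]
    show 1 + n = n + 1
    omega
  form i _ := pow_form r n _
  vars i hi j hj := by
    have h := vars_pow _ _ hj
    rw [vars_X, Finset.mem_singleton] at h
    rw [h, cx_val r (by omega)]
    omega
  vertex i hi := by
    rw [map_pow, eval_X, Pi.single_eq_same, one_pow]
    exact one_ne_zero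
  slope k := by
    simp only [map_pow, eval_X, Pi.add_apply, Pi.single_eq_same,
      Pi.single_eq_of_ne (cx_ne r (show 2 * r + 2 < 2 * r + 5 by omega)
        (show 2 * r + 3 < 2 * r + 5 by omega) (by omega)), add_zero, one_pow]
    exact one_ne_zero
  formP := exP_form r n
  apex := exP_apex r hn

/-- the example with an odd number of linear spaces -/
lemma admissible_odd (r n : ℕ) (hn : 2 ≤ n) {t a : ℕ} {ζ : ℂ} (ht : Odd t)
    (hta : t * a = n + 1) (hζ : IsPrimitiveRoot ζ t) :
    Admissible r n (fun k : Fin t => ζ ^ (k : ℕ)) (fun _ => a) (exForm r n t a) (exP r n) where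
  slopes i j h := Fin.ext (hζ.pow_inj i.2 j.2 h)
  pos _ := by
    rcases Nat.eq_zero_or_pos a with h | h
    · rw [h, mul_zero] at hta
      omega
    · exact h
  sum := by
    rw [Finset.sum_const, Finset.card_univ, Fintype.card_fin, smul_eq_mul, hta]
  form i _ := by
    have ha : a ≠ 0 := by
      rintro rfl
      omega
    obtain ⟨p, rfl⟩ := ht
    have hdeg : (1 + 1) * p + (2 * p + 1) * (a - 1) = n := by
      obtain ⟨b, rfl⟩ : ∃ b, a = b + 1 := ⟨a - 1, by omega⟩
      rw [Nat.add_sub_cancel]
      have h : (2 * p + 1) * (b + 1) = (2 * p + 1) * b + (2 * p + 1) := by ring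
      omega
    rw [exForm, show (2 * p + 1 - 1) / 2 = p by omega]
    split_ifs
    · exact pow_form r n _
    · have h1 := ((isHomogeneous_X ℂ (cx r (2 * r + 2))).mul
        (isHomogeneous_X ℂ (cx r (2 * r + 3)))).pow p
      have h4 := h1.mul (((pow_form r (2 * p + 1) (2 * r + 2)).add
        (pow_form r (2 * p + 1) (2 * r + 3))).pow (a - 1))
      rwa [hdeg] at h4
  vars i hi j hj := by
    rw [exForm] at hj
    split_ifs at hj with h1
    · have h := vars_pow _ _ hj
      rw [vars_X, Finset.mem_singleton] at h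
      rw [h, cx_val r (by omega)]
      omega
    · have h2 : j = cx r (2 * r + 2) ∨ j = cx r (2 * r + 3) := by
        rcases Finset.mem_union.1 (vars_mul _ _ hj) with h | h
        · have h := vars_mul _ _ (vars_pow _ _ h)
          rw [vars_X, vars_X, Finset.mem_union, Finset.mem_singleton,
            Finset.mem_singleton] at h
          exact h
        · rcases Finset.mem_union.1 (vars_add_subset _ _ (vars_pow _ _ h)) with h | h
          · have h := vars_pow _ _ h
            rw [vars_X, Finset.mem_singleton] at h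
            exact Or.inl h
          · have h := vars_pow _ _ h
            rw [vars_X, Finset.mem_singleton] at h
            exact Or.inr h
      rcases h2 with h | h
      · rw [h, cx_val r (by omega)]
        omega
      · rw [h, cx_val r (by omega)]
        omega
  vertex i hi := by
    rw [exForm, if_pos hi, map_pow, eval_X, Pi.single_eq_same, one_pow]
    exact one_ne_zero
  slope k := by
    have ht0 : t ≠ 0 := by
      rintro rfl
      exact absurd ht (by decide)
    rw [exForm, if_neg (lt_irrefl r)]
    simp only [map_mul, map_pow, map_add, eval_X, Pi.add_apply, Pi.single_eq_same,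
      Pi.single_eq_of_ne (cx_ne r (show 2 * r + 2 < 2 * r + 5 by omega)
        (show 2 * r + 3 < 2 * r + 5 by omega) (by omega)),
      Pi.single_eq_of_ne (cx_ne r (show 2 * r + 3 < 2 * r + 5 by omega)
        (show 2 * r + 2 < 2 * r + 5 by omega) (by omega)), add_zero, zero_add, one_mul, one_pow]
    refine mul_ne_zero (pow_ne_zero _ (pow_ne_zero _ (hζ.ne_zero ht0)))
      (pow_ne_zero _ ?_)
    rw [← pow_mul, mul_comm, pow_mul, hζ.pow_eq_one, one_pow]
    norm_num
  formP := exP_form r n
  apex := exP_apex r hn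

/-- Let `r ≥ 0` and `n ≥ 2`. The coordinates of the projective space of dimension `2r + 4` are
`x_0, …, x_(2r+4)` (`cx r j` is the index of `x_j`).

Let `b_0, …, b_(t-1)` be different complex numbers, let `a_0, …, a_(t-1) ≥ 1` be integers of sum
`n + 1`, let `g_i` for `i ≤ r` be a form of degree `n` in `x_(2i+1), …, x_(2r+3)` which does not vanish
at the point with `x_(2i+2) = 1` and other coordinates zero, if `i < r`, and at the points with
`x_(2r+2) = 1`, `x_(2r+3) = b_k` and other coordinates zero, if `i = r`, let `P` be a form of degree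
`n` in all coordinates with `P(1, 0, …, 0) ≠ 0` (`Admissible`), and let `X` be the hypersurface
`∑_(i ≤ r) (x_(2i) x_(2i+1) ^ n + x_(2i+1) g_i) + ∏ (x_(2r+3) - b_k x_(2r+2)) ^ (a_k) +
x_(2r+4) P = 0` of degree `n + 1` and dimension `2r + 3`. Let `Y` be its section by `x_(2r+4) = 0`,
let `l_k` be the linear space `x_1 = x_3 = … = x_(2r+1) = x_(2r+4) = 0`, `x_(2r+3) = b_k x_(2r+2)` of
dimension `r + 1` on `Y`, and let `B_j`, `j = 0, …, 2r + 2`, be the following subvariety of dimension
`j` of `Y`: for `j ≤ r` the linear space of the coordinates `x_0, x_2, …, x_(2j)`, for `j = r + 1` one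
of the `l_k`, for `j > r + 1` the section of `Y` by `x_(2l+1) = 0`, `l < 2r + 2 - j`.

(1) Every cycle supported on `Y`, of any dimension, is modulo rational equivalence on `X` an integer
combination of the `B_j` plus a combination of degree zero of the `l_k`, and if it has degree zero in
each dimension, it is a combination of degree zero of the `l_k` (`SectionGenerated`).

(2) If a monomial symmetry of `X`, for example the identity, maps `l_k` to `l_(π(k))` for all `k`, for a
permutation `π` with `a_(π(k)) = a_k`, then `n ^ (r + 1) ((n + 1) ∑ a_k l_(π(k)) × l_k - L × L)`,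
`L = ∑ a_k l_k`, is rationally equivalent to zero on `X × X`, and if `π` is the transposition of `i` and
`j`, then `l_i - l_j` is smash-nilpotent (`SymRelation`).

(3) If `t = 2`, or if `t` is odd, all `a_k` are equal and two monomial symmetries of `X` map `l_k` to
`l_(k+1)` and to `l_(-k)` (indices modulo `t`; `Dihedral`), then every cycle supported on `Y` which has
degree zero in each dimension, for example every homologically trivial one, is smash-nilpotent, and so
is every combination of degree zero of the `l_k`. For `N` such cycles `D_1, …, D_N`, `N = 2` for `t = 2`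
and `N = (t + 1) / 2` for odd `t`, a nonzero multiple of `D_1 × ⋯ × D_N` is rationally equivalent to zero
on `X^N` (`SectionNilpotent`).

(4) The hypersurface with `t = 2`, `b = (1, -1)`, `a = (1, n)`, `g_i = x_(2i+2) ^ n`,
`P = x_0 ^ n + x_(2r+4) ^ n` is smooth. If `t ≥ 3` is odd, `t a = n + 1` and `ζ` is a primitive `t`-th
root of unity, the hypersurface with `b_k = ζ ^ k`, `a_k = a`, `g_i = x_(2i+2) ^ n` for `i < r`,
`g_r = (x_(2r+2) x_(2r+3)) ^ ((t-1)/2) (x_(2r+2) ^ t + x_(2r+3) ^ t) ^ (a-1)`,
`P = x_0 ^ n + x_(2r+4) ^ n` is smooth and has two symmetries as in (3). -/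
theorem result (r n : ℕ) (hn : 2 ≤ n) :
    (∀ (t : ℕ) (b : Fin t → ℂ) (a : Fin t → ℕ) (g : ℕ → MvPolynomial (Fin (2 * r + 5)) ℂ)
      (P F : MvPolynomial (Fin (2 * r + 5)) ℂ), Admissible r n b a g P →
      F = planesPoly r n b a g P → ∀ k₀ : Fin t,
      ∃ (l : Fin t → Pt (hyp F) 1) (B : Fin (2 * r + 3) → Pt (hyp F) 1),
        (∀ k, (l k).I = spaceIdeal r (b k)) ∧ (∀ j, (B j).I = Kc.stdIdeal r F (b k₀) j) ∧
        SectionGenerated (hyp F) l (cx r (2 * r + 4)) B ∧
        SymRelation (hyp F) l a (n ^ (r + 1)) (n + 1) ∧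
        (t = 2 → SectionNilpotent (hyp F) l (cx r (2 * r + 4)) 2) ∧
        (Dihedral (hyp F) l a → SectionNilpotent (hyp F) l (cx r (2 * r + 4)) ((t + 1) / 2))) ∧
    (Admissible r n ![1, -1] ![1, n] (fun i => X (cx r (2 * i + 2)) ^ n) (exP r n) ∧
      Smooth (planesPoly r n ![1, -1] ![1, n] (fun i => X (cx r (2 * i + 2)) ^ n) (exP r n))) ∧
    ∀ (t a : ℕ) (ζ : ℂ) (b : Fin t → ℂ) (F : MvPolynomial (Fin (2 * r + 5)) ℂ), Odd t → 3 ≤ t →
      t * a = n + 1 → IsPrimitiveRoot ζ t → (∀ k, b k = ζ ^ (k : ℕ)) →
      F = planesPoly r n b (fun _ => a) (exForm r n t a) (exP r n) →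
      Admissible r n b (fun _ => a) (exForm r n t a) (exP r n) ∧ Smooth F ∧
      ∀ l : Fin t → Pt (hyp F) 1, (∀ k, (l k).I = spaceIdeal r (b k)) →
        Dihedral (hyp F) l (fun _ => a) := by
  refine ⟨?_, ⟨admissible_two r n hn, fun v hv => ?_⟩, ?_⟩
  · rintro t b a g P F ⟨hb, ha, hsum, hg, hgv, hge, hgb, hP, hPc⟩ rfl k₀
    obtain ⟨m, rfl⟩ : ∃ m, n = m + 2 := ⟨n - 2, by omega⟩
    set S : PlData := ⟨r, m, t, b, a, hb, ha, hsum, g, hg, hgv, hge, hgb, P, hP, hPc⟩ with hS
    obtain ⟨B, hB⟩ := Kc.exists_std S k₀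
    exact ⟨S.pl, B, S.pl_I_eq, hB, sectionGenerated S k₀ B hB, symRelation S,
      fun ht => sectionNilpotent S k₀ B hB
        (Kc.sectionNilpotent S k₀ B hB (by norm_num) (Kc.two_nil S ht)), dihedral_nil S k₀ B hB⟩
  · by_contra h
    push Not at h
    exact hv (planesPoly_smooth r n hn v h)
  · rintro t a ζ b F ht ht3 hta hζ hb rfl
    obtain rfl : b = fun k : Fin t => ζ ^ (k : ℕ) := funext hb
    have hadm := admissible_odd r n hn ht hta hζ
    have ha : 1 ≤ a := hadm.pos ⟨0, by omega⟩
    obtain ⟨p, rfl⟩ := ht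
    have hp : 1 ≤ p := by omega
    have hex : exForm r n (2 * p + 1) a = fun i => if i < r then X (cx r (2 * i + 2)) ^ n else
        (X (cx r (2 * r + 2)) * X (cx r (2 * r + 3))) ^ p *
          (X (cx r (2 * r + 2)) ^ (2 * p + 1) + X (cx r (2 * r + 3)) ^ (2 * p + 1)) ^ (a - 1) := by
      funext i
      rw [exForm, show (2 * p + 1 - 1) / 2 = p by omega]
    refine ⟨hadm, fun v hv => ?_, fun l hl => ?_⟩
    · rw [hex]
      by_contra h
      push Not at h
      exact hv (ex2_smooth r n hp ha hta.symm hζ v h)
    · obtain ⟨hb, ha', hsum, hg, hgv, hge, hgb, hP, hPc⟩ := hadm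
      obtain ⟨m, rfl⟩ : ∃ m, n = m + 2 := ⟨n - 2, by omega⟩
      set S : PlData := ⟨r, m, 2 * p + 1, fun k => ζ ^ (k : ℕ), fun _ => a, hb, ha', hsum,
        exForm r (m + 2) (2 * p + 1) a, hg, hgv, hge, hgb, exP r (m + 2), hP, hPc⟩ with hS
      obtain ⟨α, hα, hα1⟩ := ex2_rot r (m + 2) hp ha hta.symm hζ
      obtain ⟨β, hβ, hβ1⟩ := ex2_swap r (m + 2) hp ha hta.symm hζ
      have hF : exPoly2 r (m + 2) p a ζ = S.F := by
        show _ = planesPoly r (m + 2) (fun k : Fin (2 * p + 1) => ζ ^ (k : ℕ)) (fun _ => a)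
          (exForm r (m + 2) (2 * p + 1) a) (exP r (m + 2))
        rw [hex]
        rfl
      rw [hF] at hα hβ
      have hpl : l = S.pl := by
        funext k
        apply Pt.ext'
        exact (hl k).trans (S.pl_I_eq k).symm
      rw [hpl]
      exact Kc.dihedral_of S ⟨p, rfl⟩ a (fun _ => rfl) hζ (fun _ => rfl) hα hα1 hβ hβ1

end Pool.Agent.Results.MP_bf8edd_ag.HyperplaneSections
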